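import Mathlib

/-!
# The analytic part: parameters where the backward orbit of `1 - q` meets the first forward value
-/

set_option autoImplicit false

open Complex Filter Topology

namespace Pool.Agent.U535.CR

/-- one backward step (principal branch) -/
noncomputable def T (m : ℕ) (q w : ℂ) : ℂ := 1 + (q - 1) * (exp (-(log w) / m) - 1)

/-- half of the cotangent of `π / m` -/
noncomputable def hc (m : ℕ) : ℝ := Real.cos (Real.pi / m) / (2 * Real.sin (Real.pi / m))

/-- the parameter around which the roots accumulate -/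
noncomputable def q0 (m : ℕ) : ℂ := 3 / 2 - (hc m : ℂ) * I

/-- the backward orbit of `1 - q` -/
noncomputable def W (m : ℕ) (q : ℂ) : ℕ → ℂ
  | 0 => 1 - q
  | n + 1 => T m q (W m q n)

theorem sin_pos' {m : ℕ} (hm : 2 ≤ m) : 0 < Real.sin (Real.pi / m) := by
  have h0 : (0 : ℝ) < m := by positivity
  refine Real.sin_pos_of_pos_of_lt_pi (by positivity) ?_
  rw [div_lt_iff₀ h0]
  have : (2 : ℝ) ≤ m := by exact_mod_cast hm
  nlinarith [Real.pi_pos]

theorem re_T {m : ℕ} (hm : 2 ≤ m) (w : ℂ) : 1 / 2 ≤ (T m (q0 m) w).re := by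
  have h0 : (0 : ℝ) < m := by positivity
  have h2 : (2 : ℝ) ≤ m := by exact_mod_cast hm
  have hs := sin_pos' hm
  set s := Real.sin (Real.pi / m) with hsdef
  set c := Real.cos (Real.pi / m) with hcdef
  set x : ℂ := -(log w) / m with hx
  have hxre : x.re = -(Real.log ‖w‖) / m := by
    rw [hx, ← ofReal_natCast, div_ofReal_re, neg_re, log_re]
  have hxim : x.im = -(arg w) / m := by
    rw [hx, ← ofReal_natCast, div_ofReal_im, neg_im, log_im]
  have e1 : (T m (q0 m) w).re = 1 / 2 + Real.exp x.re / (2 * s) *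
      Real.sin (Real.pi / m - arg w / m) := by
    have : T m (q0 m) w = 1 + ((1 / 2 : ℝ) - (hc m : ℂ) * I) * (exp x - 1) := by
      unfold T q0
      push_cast
      ring
    rw [this, Real.sin_sub, ← hsdef, ← hcdef]
    have hexp : exp x = (Real.exp x.re * Real.cos x.im : ℝ) + (Real.exp x.re * Real.sin x.im : ℝ) * I := by
      rw [exp_eq_exp_re_mul_sin_add_cos]
      push_cast
      ring
    rw [hexp]
    have hci : Real.cos x.im = Real.cos (arg w / m) := by
      rw [hxim, neg_div, Real.cos_neg]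
    have hsi : Real.sin x.im = -Real.sin (arg w / m) := by
      rw [hxim, neg_div, Real.sin_neg]
    rw [hci, hsi]
    have hhc : hc m = c / (2 * s) := rfl
    rw [hhc]
    simp only [add_re, one_re, mul_re, sub_re, sub_im, ofReal_re, ofReal_im, I_re, I_im, mul_im,
      add_im, one_im]
    field_simp
    ring
  rw [e1]
  have h3 : 0 ≤ Real.sin (Real.pi / m - arg w / m) := by
    have ha := arg_le_pi w
    have hb := neg_pi_lt_arg w
    rw [← sub_div]
    apply Real.sin_nonneg_of_nonneg_of_le_pi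
    · exact div_nonneg (by linarith) h0.le
    · rw [div_le_iff₀ h0]
      nlinarith [Real.pi_pos]
  have h4 : 0 ≤ Real.exp x.re / (2 * s) := by positivity
  nlinarith [mul_nonneg h4 h3]

theorem norm_T_sub_one_le {m : ℕ} (hm : 1 ≤ m) {q w : ℂ} (h : ‖log w‖ ≤ m) :
    ‖T m q w - 1‖ ≤ ‖q - 1‖ * (‖log w‖ / m * (1 + ‖log w‖ / m)) := by
  have h0 : (0 : ℝ) < m := by positivity
  have e : T m q w - 1 = (q - 1) * (exp (-(log w) / m) - 1) := by
    unfold T; ring
  rw [e, norm_mul]
  refine mul_le_mul_of_nonneg_left ?_ (norm_nonneg _)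
  set x : ℂ := -(log w) / m with hx
  have hn : ‖x‖ = ‖log w‖ / m := by
    rw [hx, norm_div, norm_neg, norm_natCast]
  have h1 : ‖x‖ ≤ 1 := by
    rw [hn, div_le_one h0]; exact h
  have h2 := norm_exp_sub_one_sub_id_le h1
  have h3 : ‖exp x - 1‖ ≤ ‖exp x - 1 - x‖ + ‖x‖ := by
    have := norm_add_le (exp x - 1 - x) x
    simpa using this
  rw [hn] at *
  nlinarith

theorem norm_q0_sub_one {m : ℕ} (hm : 100 ≤ m) : ‖q0 m - 1‖ ≤ 0.16 * m := by
  have h0 : (0 : ℝ) < m := by positivity
  have h100 : (100 : ℝ) ≤ m := by exact_mod_cast hm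
  have hs := sin_pos' (show 2 ≤ m by omega)
  set s := Real.sin (Real.pi / m) with hsdef
  have h1 : 3.14 / m ≤ s := by
    have hpos : 0 < Real.pi / m := by positivity
    have := Real.sin_gt_sub_cube hpos
    have h2 : Real.pi / m ≤ 0.0315 := by
      rw [div_le_iff₀ h0]
      have := Real.pi_lt_d2
      nlinarith
    have h3 : Real.pi / m - (Real.pi / m) ^ 3 / 6 ≥ (Real.pi / m) * 0.9998 := by
      have : (Real.pi / m) ^ 2 ≤ 0.0315 ^ 2 := by
        apply pow_le_pow_left₀ hpos.le h2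
      nlinarith
    have h4 : Real.pi / m ≥ 3.141 / m := by
      apply div_le_div_of_nonneg_right _ h0.le
      have := Real.pi_gt_d4
      linarith
    have h5 : (3.141 / m : ℝ) * 0.9998 ≥ 3.14 / m := by
      rw [ge_iff_le, div_mul_eq_mul_div]
      apply div_le_div_of_nonneg_right _ h0.le
      norm_num
    nlinarith
  have h2 : ‖q0 m - 1‖ = 1 / (2 * s) := by
    have e : q0 m - 1 = ((1 / 2 : ℝ) : ℂ) + ((-hc m : ℝ) : ℂ) * I := by
      unfold q0; push_cast; ring
    rw [e, norm_add_mul_I]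
    rw [Real.sqrt_eq_iff_mul_self_eq (by positivity) (by positivity)]
    unfold hc
    rw [← hsdef]
    have := Real.sin_sq_add_cos_sq (Real.pi / m)
    rw [← hsdef] at this
    field_simp
    nlinarith
  rw [h2]
  rw [div_le_iff₀ (by positivity)]
  have h3 : 3.14 ≤ s * m := by
    rw [div_le_iff₀ h0] at h1; exact h1
  nlinarith


theorem log_bound {m : ℕ} (hm : 100 ≤ m) : Real.log m + Real.pi ≤ 0.08 * m := by
  have h0 : (0 : ℝ) < m := by positivity
  have h100 : (100 : ℝ) ≤ m := by exact_mod_cast hm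
  have h1 : Real.log (m / 64) ≤ m / 64 - 1 := Real.log_le_sub_one_of_pos (by positivity)
  have h2 : Real.log (m / 64) = Real.log m - 6 * Real.log 2 := by
    rw [Real.log_div h0.ne' (by norm_num)]
    have : (64 : ℝ) = 2 ^ 6 := by norm_num
    rw [this, Real.log_pow]
    norm_num
  have h3 := Real.log_two_lt_d9
  have h4 := Real.pi_lt_d2
  rw [h2] at h1
  linarith

/-- step from the half-plane -/
theorem step {m : ℕ} (hm : 100 ≤ m) {w : ℂ} {L : ℝ} (hL : ‖log w‖ ≤ L) (hLm : L ≤ 0.08 * m) :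
    ‖T m (q0 m) w - 1‖ ≤ 0.1728 * L := by
  have h0 : (0 : ℝ) < m := by positivity
  have h1 := norm_T_sub_one_le (show 1 ≤ m by omega) (q := q0 m) (w := w) (by linarith)
  have h2 := norm_q0_sub_one hm
  have hx : ‖log w‖ / m ≤ 0.08 := by
    rw [div_le_iff₀ h0]; linarith
  have hx0 : 0 ≤ ‖log w‖ / m := by positivity
  calc ‖T m (q0 m) w - 1‖ ≤ ‖q0 m - 1‖ * (‖log w‖ / m * (1 + ‖log w‖ / m)) := h1
    _ ≤ (0.16 * m) * (‖log w‖ / m * (1 + 0.08)) := by
        apply mul_le_mul h2 _ (by positivity) (by positivity)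
        apply mul_le_mul_of_nonneg_left _ hx0
        linarith
    _ = 0.1728 * ‖log w‖ := by field_simp; ring
    _ ≤ 0.1728 * L := by linarith

theorem norm_log_le' (w : ℂ) : ‖log w‖ ≤ |Real.log ‖w‖| + |arg w| := by
  have := norm_le_abs_re_add_abs_im (log w)
  rwa [log_re, log_im] at this

theorem abs_log_le {x M : ℝ} (h1 : 1 / 2 ≤ x) (h2 : x ≤ M) (hM : 2 ≤ M) : |Real.log x| ≤ Real.log M := by
  have hx : 0 < x := by linarith
  rw [abs_le]
  constructor
  · have : Real.log (1 / 2) ≤ Real.log x := Real.log_le_log (by norm_num) h1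
    have h3 : Real.log (1 / 2) = - Real.log 2 := by
      rw [one_div, Real.log_inv]
    have h4 : Real.log 2 ≤ Real.log M := Real.log_le_log (by norm_num) hM
    linarith
  · exact Real.log_le_log hx h2

theorem half_le_norm {w : ℂ} (h : 1 / 2 ≤ w.re) : 1 / 2 ≤ ‖w‖ :=
  h.trans ((le_abs_self _).trans (abs_re_le_norm w))

theorem W_re {m : ℕ} (hm : 2 ≤ m) (n : ℕ) : 1 / 2 ≤ (W m (q0 m) (n + 1)).re := re_T hm _

theorem W_zero_norm {m : ℕ} : 1 / 2 ≤ ‖W m (q0 m) 0‖ := by
  have : (W m (q0 m) 0).re = -(1 / 2) := by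
    simp [W, q0]; norm_num
  have h := abs_re_le_norm (W m (q0 m) 0)
  rw [this] at h
  simpa using h

/-- the first step -/
theorem W_one {m : ℕ} (hm : 100 ≤ m) : ‖W m (q0 m) 1‖ ≤ m := by
  have h100 : (100 : ℝ) ≤ m := by exact_mod_cast hm
  have hb := log_bound hm
  have h1 : ‖W m (q0 m) 0‖ ≤ m := by
    have := norm_q0_sub_one hm
    have e : ‖W m (q0 m) 0‖ = ‖q0 m - 1‖ := by
      show ‖1 - q0 m‖ = _
      rw [norm_sub_rev]
    rw [e]; linarith
  have h2 : ‖log (W m (q0 m) 0)‖ ≤ Real.log m + Real.pi := by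
    refine (norm_log_le' _).trans ?_
    have h3 := abs_log_le W_zero_norm h1 (by linarith)
    have h4 := abs_arg_le_pi (W m (q0 m) 0)
    linarith
  have h5 := step hm h2 hb
  have h6 : ‖W m (q0 m) 1‖ ≤ ‖T m (q0 m) (W m (q0 m) 0) - 1‖ + ‖(1 : ℂ)‖ := by
    have := norm_add_le (T m (q0 m) (W m (q0 m) 0) - 1) 1
    simpa [W] using this
  rw [norm_one] at h6
  linarith

theorem W_step {m : ℕ} (hm : 100 ≤ m) (n : ℕ) (h : ‖W m (q0 m) (n + 1)‖ ≤ m)
    (h2 : 2 ≤ ‖W m (q0 m) (n + 1)‖) : ‖W m (q0 m) (n + 2)‖ ≤ 0.8 * ‖W m (q0 m) (n + 1)‖ := by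
  have h100 : (100 : ℝ) ≤ m := by exact_mod_cast hm
  have hb := log_bound hm
  set w := W m (q0 m) (n + 1) with hw
  have hre : 1 / 2 ≤ w.re := W_re (by omega) n
  have ha : |arg w| ≤ Real.pi / 2 := abs_arg_le_pi_div_two_iff.2 (by linarith)
  have hpi := Real.pi_lt_d2
  have hpi0 := Real.pi_pos
  have h3 := abs_log_le (half_le_norm hre) le_rfl h2
  have h4 : ‖log w‖ ≤ Real.log ‖w‖ + Real.pi / 2 := by
    have := norm_log_le' w
    linarith
  have h5 : Real.log ‖w‖ ≤ Real.log m := Real.log_le_log (by linarith) h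
  have h6 := step hm h4 (by linarith)
  have h7 : Real.log ‖w‖ ≤ ‖w‖ - 1 := Real.log_le_sub_one_of_pos (by linarith)
  have h8 : ‖W m (q0 m) (n + 2)‖ ≤ ‖T m (q0 m) w - 1‖ + ‖(1 : ℂ)‖ := by
    have := norm_add_le (T m (q0 m) w - 1) 1
    simpa [W, hw] using this
  rw [norm_one] at h8
  linarith

theorem exists_near {m : ℕ} (hm : 100 ≤ m) : ∃ N, 1 ≤ N ∧ ‖W m (q0 m) N - 1‖ < 1 / 2 := by
  have h100 : (100 : ℝ) ≤ m := by exact_mod_cast hm
  -- some iterate has norm at most two
  have key : ∃ n, ‖W m (q0 m) (n + 1)‖ ≤ 2 := by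
    by_contra hcon
    push Not at hcon
    have hdec : ∀ n, ‖W m (q0 m) (n + 1)‖ ≤ 0.8 ^ n * m := by
      intro n
      induction n with
      | zero => simpa using W_one hm
      | succ n ih =>
        have h1 : ‖W m (q0 m) (n + 1)‖ ≤ m := by
          refine ih.trans ?_
          have : (0.8 : ℝ) ^ n ≤ 1 := pow_le_one₀ (by norm_num) (by norm_num)
          nlinarith
        have h2 := W_step hm n h1 (hcon n).le
        rw [pow_succ]
        linarith
    have hlim : Tendsto (fun n : ℕ => (0.8 : ℝ) ^ n * m) atTop (𝓝 (0 * m)) :=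
      (tendsto_pow_atTop_nhds_zero_of_lt_one (by norm_num) (by norm_num)).mul_const _
    rw [zero_mul] at hlim
    obtain ⟨n, hn⟩ := (hlim.eventually (gt_mem_nhds (show (0 : ℝ) < 2 by norm_num))).exists
    linarith [hdec n, hcon n]
  obtain ⟨n, hn⟩ := key
  refine ⟨n + 2, by omega, ?_⟩
  set w := W m (q0 m) (n + 1) with hw
  have hre : 1 / 2 ≤ w.re := W_re (by omega) n
  have ha : |arg w| ≤ Real.pi / 2 := abs_arg_le_pi_div_two_iff.2 (by linarith)
  have hpi := Real.pi_lt_d2
  have hl2 := Real.log_two_lt_d9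
  have h3 := abs_log_le (half_le_norm hre) hn le_rfl
  have h4 : ‖log w‖ ≤ 2.27 := by
    have := norm_log_le' w
    linarith
  have h6 := step hm h4 (by linarith)
  have h7 : ‖W m (q0 m) (n + 2) - 1‖ = ‖T m (q0 m) w - 1‖ := rfl
  rw [h7]
  linarith

theorem W_slit {m : ℕ} (hm : 3 ≤ m) (n : ℕ) : W m (q0 m) n ∈ slitPlane := by
  cases n with
  | zero =>
    have : (W m (q0 m) 0).im = hc m := by
      simp [W, q0]
    rw [mem_slitPlane_iff]
    right
    rw [this]
    unfold hc
    have h0 : (0 : ℝ) < m := by positivity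
    have hs := sin_pos' (show 2 ≤ m by omega)
    have hc : 0 < Real.cos (Real.pi / m) := by
      apply Real.cos_pos_of_mem_Ioo
      constructor
      · have : 0 < Real.pi / m := by positivity
        linarith [Real.pi_pos]
      · apply div_lt_div_of_pos_left Real.pi_pos (by norm_num)
        have : (3 : ℝ) ≤ m := by exact_mod_cast hm
        linarith
    positivity
  | succ n =>
    rw [mem_slitPlane_iff]
    left
    have := W_re (show 2 ≤ m by omega) n
    linarith

theorem W_analytic_step {m : ℕ} {q : ℂ} {n : ℕ} (h : AnalyticAt ℂ (fun q => W m q n) q)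
    (hs : W m q n ∈ slitPlane) : AnalyticAt ℂ (fun q => W m q (n + 1)) q := by
  have h1 : AnalyticAt ℂ (fun q => exp (-(log (W m q n)) / m)) q :=
    ((h.clog hs).neg.div_const).cexp
  exact analyticAt_const.add ((analyticAt_id.sub analyticAt_const).mul (h1.sub analyticAt_const))

theorem W_analytic {m : ℕ} (hm : 3 ≤ m) (n : ℕ) : AnalyticAt ℂ (fun q => W m q n) (q0 m) := by
  induction n with
  | zero => exact analyticAt_const.sub analyticAt_id
  | succ n ih => exact W_analytic_step ih (W_slit hm n)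

/-- contraction near `1` -/
theorem contract {m : ℕ} (hm : 100 ≤ m) {q w : ℂ} (hq : ‖q - 1‖ ≤ 0.165 * m) (hw : ‖w - 1‖ ≤ 1 / 2) :
    ‖T m q w - 1‖ ≤ 1 / 2 * ‖w - 1‖ := by
  have h0 : (0 : ℝ) < m := by positivity
  have h100 : (100 : ℝ) ≤ m := by exact_mod_cast hm
  have h1 : ‖log w‖ ≤ 3 / 2 * ‖w - 1‖ := by
    have := norm_log_one_add_half_le_self hw
    simpa using this
  have h2 := norm_T_sub_one_le (show 1 ≤ m by omega) (q := q) (w := w) (by linarith)
  have hx0 : 0 ≤ ‖log w‖ / m := by positivity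
  have hx : ‖log w‖ / m ≤ 1 := by
    rw [div_le_iff₀ h0]; linarith
  calc ‖T m q w - 1‖ ≤ ‖q - 1‖ * (‖log w‖ / m * (1 + ‖log w‖ / m)) := h2
    _ ≤ (0.165 * m) * (‖log w‖ / m * (1 + 1)) := by
        apply mul_le_mul hq _ (by positivity) (by positivity)
        apply mul_le_mul_of_nonneg_left _ hx0
        linarith
    _ = 0.33 * ‖log w‖ := by field_simp; ring
    _ ≤ 1 / 2 * ‖w - 1‖ := by linarith [norm_nonneg (w - 1)]


/-- the polynomial whose zeros are the parameters with first value `1` -/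
noncomputable def E (m : ℕ) (q : ℂ) : ℂ := (q - 1) ^ m - (q - 2) ^ m

theorem E_q0 {m : ℕ} (hm : 3 ≤ m) : E m (q0 m) = 0 := by
  have h0 : (0 : ℝ) < m := by positivity
  have hs := sin_pos' (show 2 ≤ m by omega)
  have h1 : (q0 m - 1) = (q0 m - 2) * exp ((2 * Real.pi / m : ℝ) * I) := by
    have e1 : exp ((2 * Real.pi / m : ℝ) * I) = (Real.cos (2 * (Real.pi / m)) : ℝ) +
        (Real.sin (2 * (Real.pi / m)) : ℝ) * I := by
      rw [exp_mul_I, ← ofReal_cos, ← ofReal_sin]
      congr 3 <;> ring_nf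
    have hsc := Real.sin_sq_add_cos_sq (Real.pi / m)
    have key : ∀ h C S : ℝ, (-(1 / 2) * C + h * S = 1 / 2) → (-(1 / 2) * S - h * C = -h) →
        ((1 / 2 : ℂ) - h * I) = (-(1 / 2) - h * I) * (C + S * I) := by
      intro h C S h1 h2
      have h1' : (-(1 / 2) * C + h * S : ℂ) = 1 / 2 := by
        have := congrArg (fun x : ℝ => (x : ℂ)) h1
        push_cast at this
        exact this
      have h2' : (-(1 / 2) * S - h * C : ℂ) = -h := by
        have := congrArg (fun x : ℝ => (x : ℂ)) h2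
        push_cast at this
        exact this
      have e : (-(1 / 2) - (h : ℂ) * I) * (C + S * I) =
          (-(1 / 2) * C - h * S * (I * I)) + (-(1 / 2) * S - h * C) * I := by ring
      have e' : (1 / 2 : ℂ) - h * I = (-(1 / 2) * C + h * S) - h * I := by rw [h1']
      rw [e, I_mul_I, h2', e']
      ring
    rw [e1]
    have hk := key (hc m) (Real.cos (2 * (Real.pi / m))) (Real.sin (2 * (Real.pi / m))) ?_ ?_
    · have e2 : q0 m - 1 = (1 / 2 : ℂ) - hc m * I := by unfold q0; ring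
      have e3 : q0 m - 2 = -(1 / 2 : ℂ) - hc m * I := by unfold q0; ring
      rw [e2, e3]
      exact hk
    · rw [Real.cos_two_mul, Real.sin_two_mul]
      unfold hc
      field_simp
      nlinarith
    · rw [Real.cos_two_mul, Real.sin_two_mul]
      unfold hc
      field_simp
      have : 2 * Real.sin (Real.pi / m) ^ 2 + (2 * Real.cos (Real.pi / m) ^ 2 - 1) = 1 := by linarith
      linear_combination (-Real.cos (Real.pi / m)) * this
  unfold E
  rw [h1, mul_pow, ← exp_nat_mul]
  have : (m : ℂ) * ((2 * Real.pi / m : ℝ) * I) = 2 * Real.pi * I := by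
    push_cast
    have : (m : ℂ) ≠ 0 := by exact_mod_cast h0.ne'
    field_simp
  rw [this, exp_two_pi_mul_I]
  ring

theorem E_one {m : ℕ} (hm : 3 ≤ m) : E m 1 ≠ 0 := by
  unfold E
  rw [sub_self, zero_pow (by omega)]
  have : ((1 : ℂ) - 2) ^ m ≠ 0 := pow_ne_zero _ (by norm_num)
  simpa using this

theorem E_analytic (m : ℕ) (q : ℂ) : AnalyticAt ℂ (E m) q :=
  ((analyticAt_id.sub analyticAt_const).pow m).sub ((analyticAt_id.sub analyticAt_const).pow m)

theorem E_isolated {m : ℕ} (hm : 3 ≤ m) : ∀ᶠ z in 𝓝[≠] (q0 m), E m z ≠ 0 := by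
  rcases (E_analytic m (q0 m)).eventually_eq_zero_or_eventually_ne_zero with h | h
  · exfalso
    have h1 : AnalyticOnNhd ℂ (E m) Set.univ := fun z _ => E_analytic m z
    have h2 : AnalyticOnNhd ℂ (fun _ : ℂ => (0 : ℂ)) Set.univ := fun z _ => analyticAt_const
    have := h1.eq_of_eventuallyEq h2 (z₀ := q0 m) h
    exact E_one hm (congrFun this 1)
  · exact h

/-- **Main analytic statement.** -/
theorem exists_param {m : ℕ} (hm : 100 ≤ m) {ε : ℝ} (hε : 0 < ε) :
    ∃ (N : ℕ) (q : ℂ), ‖q - q0 m‖ < ε ∧ q ≠ 1 ∧ q ≠ 2 ∧ (∀ n < N, W m q n ≠ 0) ∧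
      (q - 1) ^ m = W m q N * (q - 2) ^ m := by
  have h100 : (100 : ℝ) ≤ m := by exact_mod_cast hm
  obtain ⟨N0, -, hN0⟩ := exists_near hm
  -- a good neighbourhood
  have hg1 : ∀ᶠ q in 𝓝 (q0 m), ∀ n ∈ Finset.range (N0 + 1),
      AnalyticAt ℂ (fun q => W m q n) q ∧ W m q n ∈ slitPlane := by
    rw [Filter.eventually_all_finset]
    intro n _
    have h1 := (W_analytic (show 3 ≤ m by omega) n).eventually_analyticAt
    have h2 := (W_analytic (show 3 ≤ m by omega) n).continuousAt.eventually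
      (isOpen_slitPlane.mem_nhds (W_slit (show 3 ≤ m by omega) n))
    exact h1.and h2
  have hg2 : ∀ᶠ q in 𝓝 (q0 m), ‖W m q N0 - 1‖ < 1 / 2 := by
    have h1 := (W_analytic (show 3 ≤ m by omega) N0).continuousAt
    have h2 : ContinuousAt (fun q => ‖W m q N0 - 1‖) (q0 m) := (h1.sub continuousAt_const).norm
    exact h2.eventually (gt_mem_nhds hN0)
  have hg3 := eventually_nhdsWithin_iff.1 (E_isolated (show 3 ≤ m by omega))
  obtain ⟨r, hr0, hr⟩ := Metric.eventually_nhds_iff_ball.1 ((hg1.and hg2).and hg3)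
  -- the radius
  set ρ := min (r / 2) (min (ε / 2) (1 / 4)) with hρ
  have hρ0 : 0 < ρ := by
    rw [hρ]; positivity
  have hρr : ρ < r := by
    have := min_le_left (r / 2) (min (ε / 2) (1 / 4))
    rw [← hρ] at this; linarith
  have hρε : ρ < ε := by
    have := (min_le_right (r / 2) (min (ε / 2) (1 / 4))).trans (min_le_left _ _)
    rw [← hρ] at this; linarith
  have hρ4 : ρ ≤ 1 / 4 := (min_le_right _ _).trans (min_le_right _ _)
  have hball : ∀ q ∈ Metric.closedBall (q0 m) ρ, q ∈ Metric.ball (q0 m) r := by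
    intro q hq
    exact Metric.closedBall_subset_ball hρr hq
  have hq1 : ∀ q ∈ Metric.closedBall (q0 m) ρ, ‖q - 1‖ ≤ 0.165 * m := by
    intro q hq
    rw [mem_closedBall_iff_norm] at hq
    have h1 := norm_q0_sub_one hm
    have h2 : ‖q - 1‖ ≤ ‖q - q0 m‖ + ‖q0 m - 1‖ := by
      have := norm_add_le (q - q0 m) (q0 m - 1)
      simpa using this
    linarith
  -- the later iterates
  have hlate : ∀ q ∈ Metric.closedBall (q0 m) ρ, ∀ k,
      ‖W m q (N0 + k) - 1‖ ≤ 1 / 2 * (1 / 2) ^ k ∧ AnalyticAt ℂ (fun q => W m q (N0 + k)) q ∧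
        W m q (N0 + k) ∈ slitPlane := by
    intro q hq k
    induction k with
    | zero =>
      have h1 := hr q (hball q hq)
      refine ⟨?_, ?_, ?_⟩
      · simpa using h1.1.2.le
      · exact (h1.1.1 N0 (by simp)).1
      · exact (h1.1.1 N0 (by simp)).2
    | succ k ih =>
      obtain ⟨i1, i2, i3⟩ := ih
      have hp : (1 / 2 : ℝ) ^ k ≤ 1 := pow_le_one₀ (by norm_num) (by norm_num)
      have h1 : ‖W m q (N0 + k) - 1‖ ≤ 1 / 2 := by linarith
      have h2 := contract hm (hq1 q hq) h1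
      have h3 : ‖W m q (N0 + (k + 1)) - 1‖ ≤ 1 / 2 * (1 / 2) ^ (k + 1) := by
        have e : W m q (N0 + (k + 1)) = T m q (W m q (N0 + k)) := rfl
        rw [e, pow_succ]
        linarith
      refine ⟨h3, W_analytic_step i2 i3, ?_⟩
      rw [mem_slitPlane_iff]
      left
      have hp' : (1 / 2 : ℝ) ^ (k + 1) ≤ 1 := pow_le_one₀ (by norm_num) (by norm_num)
      have h4 : ‖W m q (N0 + (k + 1)) - 1‖ ≤ 1 / 2 := by linarith
      have h5 := (abs_re_le_norm _).trans h4
      rw [abs_le, sub_re, one_re] at h5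
      linarith [h5.1]
  -- lower bound of `E` on the sphere
  have hsph_ne : (Metric.sphere (q0 m) ρ).Nonempty :=
    NormedSpace.sphere_nonempty.2 hρ0.le
  have hEc : ContinuousOn (fun z => ‖E m z‖) (Metric.sphere (q0 m) ρ) := fun z _ =>
    ((E_analytic m z).continuousAt.norm).continuousWithinAt
  obtain ⟨z1, hz1, hmin⟩ := (isCompact_sphere (q0 m) ρ).exists_isMinOn hsph_ne hEc
  set μ := ‖E m z1‖ with hμ
  have hμ0 : 0 < μ := by
    rw [hμ, norm_pos_iff]
    have h1 := (hr z1 (hball z1 (Metric.sphere_subset_closedBall hz1))).2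
    apply h1
    intro h
    rw [Set.mem_singleton_iff.1 h, mem_sphere_iff_norm, sub_self, norm_zero] at hz1
    linarith
  -- choice of the number of steps
  have hC : ∀ q ∈ Metric.closedBall (q0 m) ρ, ‖(q - 2) ^ m‖ ≤ (m + 1 : ℝ) ^ m := by
    intro q hq
    rw [norm_pow]
    apply pow_le_pow_left₀ (norm_nonneg _)
    have h1 := hq1 q hq
    have h2 : ‖q - 2‖ ≤ ‖q - 1‖ + ‖(1 : ℂ)‖ := by
      have := norm_sub_le (q - 1) 1
      have e : q - 1 - 1 = q - 2 := by ring
      rwa [e] at this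
    rw [norm_one] at h2
    linarith
  have hlim : Tendsto (fun k : ℕ => 1 / 2 * (1 / 2 : ℝ) ^ k * (m + 1 : ℝ) ^ m) atTop (𝓝 0) := by
    have h1 := tendsto_pow_atTop_nhds_zero_of_lt_one (r := (1 / 2 : ℝ)) (by norm_num) (by norm_num)
    have := (h1.const_mul (1 / 2)).mul_const ((m + 1 : ℝ) ^ m)
    simpa using this
  obtain ⟨k, hk⟩ := (hlim.eventually (gt_mem_nhds (show (0 : ℝ) < μ / 4 by positivity))).exists
  set F : ℂ → ℂ := fun q => (q - 1) ^ m - W m q (N0 + k) * (q - 2) ^ m with hF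
  have hFE : ∀ q ∈ Metric.closedBall (q0 m) ρ, ‖F q - E m q‖ < μ / 4 := by
    intro q hq
    have e : F q - E m q = -((W m q (N0 + k) - 1) * (q - 2) ^ m) := by
      simp only [hF, E]; ring
    rw [e, norm_neg, norm_mul]
    refine lt_of_le_of_lt ?_ hk
    exact mul_le_mul (hlate q hq k).1 (hC q hq) (norm_nonneg _) (by positivity)
  have hFa : ∀ q ∈ Metric.closedBall (q0 m) ρ, AnalyticAt ℂ F q := by
    intro q hq
    exact ((analyticAt_id.sub analyticAt_const).pow m).sub
      ((hlate q hq k).2.1.mul ((analyticAt_id.sub analyticAt_const).pow m))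
  -- a zero of `F`
  have hzero : ∃ q ∈ Metric.closedBall (q0 m) ρ, F q = 0 := by
    by_contra hcon
    push Not at hcon
    have hd : DiffContOnCl ℂ (fun q => (F q)⁻¹) (Metric.ball (q0 m) ρ) := by
      apply DifferentiableOn.diffContOnCl
      rw [closure_ball _ hρ0.ne']
      intro q hq
      exact ((hFa q hq).differentiableAt.inv (hcon q hq)).differentiableWithinAt
    have hb : ∀ z ∈ frontier (Metric.ball (q0 m) ρ), ‖(F z)⁻¹‖ ≤ (3 * μ / 4)⁻¹ := by
      intro z hz
      rw [frontier_ball _ hρ0.ne'] at hz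
      have h1 : μ ≤ ‖E m z‖ := hmin hz
      have h2 := hFE z (Metric.sphere_subset_closedBall hz)
      have h3 : ‖E m z‖ ≤ ‖F z‖ + ‖F z - E m z‖ := by
        have := norm_sub_le (F z) (F z - E m z)
        simpa using this
      rw [norm_inv]
      apply inv_anti₀ (by positivity)
      linarith
    have hc := norm_le_of_forall_mem_frontier_norm_le Metric.isBounded_ball hd hb
      (subset_closure (Metric.mem_ball_self hρ0))
    rw [norm_inv] at hc
    have hcen : q0 m ∈ Metric.closedBall (q0 m) ρ := Metric.mem_closedBall_self hρ0.le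
    have h1 := hFE _ hcen
    rw [E_q0 (by omega), sub_zero] at h1
    have h2 : 0 < ‖F (q0 m)‖ := norm_pos_iff.2 (hcon _ hcen)
    have h3 := (inv_le_inv₀ h2 (by positivity)).1 hc
    linarith
  obtain ⟨q, hq, hFq⟩ := hzero
  have hqn : ‖q - q0 m‖ ≤ ρ := by rwa [mem_closedBall_iff_norm] at hq
  have him : ∀ x : ℝ, q ≠ x := by
    intro x hx
    have h1 : |(q - q0 m).im| ≤ ρ := (abs_im_le_norm _).trans hqn
    have h2 : (q - q0 m).im = hc m := by
      rw [hx]; simp [q0]
    rw [h2] at h1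
    have h3 : 1 ≤ hc m := by
      unfold hc
      have hs := sin_pos' (show 2 ≤ m by omega)
      rw [le_div_iff₀ (by positivity)]
      have hθ : Real.pi / m ≤ 0.0315 := by
        rw [div_le_iff₀ (by positivity)]
        have := Real.pi_lt_d2
        nlinarith
      have hθ0 : 0 < Real.pi / m := by positivity
      have h4 := Real.one_sub_sq_div_two_le_cos (x := Real.pi / m)
      have h5 := Real.sin_lt hθ0
      nlinarith
    have h4 := le_abs_self (hc m)
    linarith
  refine ⟨N0 + k, q, lt_of_le_of_lt hqn hρε, ?_, ?_, ?_, ?_⟩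
  · have := him 1; simpa using this
  · have := him 2; simpa using this
  · intro n hn h0
    have hsl : W m q n ∈ slitPlane := by
      rcases le_or_gt n N0 with h | h
      · exact ((hr q (hball q hq)).1.1 n (by simp; omega)).2
      · obtain ⟨j, rfl⟩ := Nat.exists_eq_add_of_lt h
        exact (hlate q hq (j + 1)).2.2
    rw [h0] at hsl
    exact absurd hsl (by simp)
  · have : (q - 1) ^ m - W m q (N0 + k) * (q - 2) ^ m = 0 := hFq
    exact sub_eq_zero.1 this

end Pool.Agent.U535.CR
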