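import Mathlib

/-!
# Definitions: series-parallel graphs, chromatic polynomials, second-largest degree
-/

set_option autoImplicit false

open Polynomial ENNReal

namespace Pool.Agent.U535.CR

/-- `G` has a `K₄` minor: there are four pairwise disjoint vertex sets, each inducing a connected
subgraph, any two of which are joined by an edge of `G`. -/
def HasK4Minor {V : Type} (G : SimpleGraph V) : Prop :=
  ∃ f : Fin 4 → Set V, (∀ i, (G.induce (f i)).Connected) ∧
    (∀ i j, i ≠ j → Disjoint (f i) (f j)) ∧
    (∀ i j, i ≠ j → ∃ a ∈ f i, ∃ b ∈ f j, G.Adj a b)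

/-- The number of proper colourings of `G` with `n` colours. -/
noncomputable def numColourings {V : Type} (G : SimpleGraph V) (n : ℕ) : ℕ :=
  Nat.card {σ : V → Fin n // ∀ x y, G.Adj x y → σ x ≠ σ y}

/-- `P` is the chromatic polynomial of `G`: its value at every positive integer `n` is the number
of proper colourings of `G` with `n` colours. -/
def IsChromaticPolynomial {V : Type} (G : SimpleGraph V) (P : ℂ[X]) : Prop :=
  ∀ n : ℕ, 1 ≤ n → P.eval (n : ℂ) = (numColourings G n : ℂ)

/-- The degree sequence of a finite graph, with repetitions, in non-increasing order. -/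
noncomputable def degreeSequence {V : Type} [Fintype V] (G : SimpleGraph V) : List ℕ :=
  ((Finset.univ : Finset V).val.map fun v => (G.neighborSet v).ncard).sort (· ≥ ·)

/-- The second-largest degree `Δ₂(G)`: the second entry of the degree sequence (`0` if there are
fewer than two vertices). -/
noncomputable def secondDegree {V : Type} [Fintype V] (G : SimpleGraph V) : ℕ :=
  (degreeSequence G).getD 1 0

/-- `M₂(k)`: the supremum of `|q|` over all chromatic roots `q` of series-parallel graphs (no `K₄`
minor) with second-largest degree at most `k`. -/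
noncomputable def M₂ (k : ℕ) : ℝ≥0∞ :=
  sSup {x | ∃ (V : Type) (_ : Fintype V) (G : SimpleGraph V) (P : ℂ[X]) (q : ℂ),
    ¬ HasK4Minor G ∧ secondDegree G ≤ k ∧ IsChromaticPolynomial G P ∧ P.eval q = 0 ∧
      x = ENNReal.ofReal ‖q‖}

end Pool.Agent.U535.CR
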