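import Mathlib
import Pool.Agent.U535.CR.Defs

/-!
# Trees with a hub: no `K₄` minor, degrees, chromatic polynomial
-/

set_option autoImplicit false

open SimpleGraph Polynomial

namespace Pool.Agent.U535.CR

/-- A rooted forest-like network together with the set of vertices that will be joined to a hub. -/
structure Net where
  V : Type
  fin : Fintype V
  root : V
  adj : V → V → Prop
  hub : V → Prop
  depth : V → ℕ
  symm : ∀ a b, adj a b → adj b a
  irr : ∀ a, ¬ adj a a
  depth_ne : ∀ a b, adj a b → depth a ≠ depth b
  parent : ∀ a b b', adj a b → adj a b' → depth b < depth a → depth b' < depth a → b = b'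
  depth_root : depth root = 0

/-- one vertex, joined to the hub -/
def leaf : Net where
  V := Unit
  fin := inferInstance
  root := ()
  adj _ _ := False
  hub _ := True
  depth _ := 0
  symm _ _ h := h
  irr _ h := h
  depth_ne _ _ h := h.elim
  parent _ _ _ h := h.elim
  depth_root := rfl

/-- adjacency in `node` -/
def nodeAdj (m : ℕ) (N : Net) : Option (Fin m × N.V) → Option (Fin m × N.V) → Prop
  | none, none => False
  | none, some p => p.2 = N.root
  | some p, none => p.2 = N.root
  | some p, some p' => p.1 = p'.1 ∧ N.adj p.2 p'.2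

/-- the depth in `node` -/
def nodeDepth (m : ℕ) (N : Net) : Option (Fin m × N.V) → ℕ
  | none => 0
  | some p => N.depth p.2 + 1

/-- the vertices of `node` joined to the hub -/
def nodeHub (m : ℕ) (N : Net) : Option (Fin m × N.V) → Prop
  | none => False
  | some p => N.hub p.2

/-- a new root joined to the roots of `m` copies of `N` -/
def node (m : ℕ) (N : Net) : Net where
  V := Option (Fin m × N.V)
  fin := by
    have := N.fin
    exact inferInstance
  root := none
  adj := nodeAdj m N
  hub := nodeHub m N
  depth := nodeDepth m N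
  symm := by
    rintro (_ | ⟨i, a⟩) (_ | ⟨j, b⟩) h
    · exact h
    · exact h
    · exact h
    · exact ⟨h.1.symm, N.symm _ _ h.2⟩
  irr := by
    rintro (_ | ⟨i, a⟩) h
    · exact h
    · exact N.irr _ h.2
  depth_ne := by
    rintro (_ | ⟨i, a⟩) (_ | ⟨j, b⟩) h
    · exact h.elim
    · simp [nodeDepth]
    · simp [nodeDepth]
    · have := N.depth_ne _ _ h.2
      simpa [nodeDepth] using this
  parent := by
    rintro (_ | ⟨i, a⟩) (_ | ⟨j, b⟩) (_ | ⟨k, c⟩) h1 h2 h3 h4
    · rfl
    · simp [nodeDepth] at h3
    · simp [nodeDepth] at h3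
    · simp [nodeDepth] at h3
    · rfl
    · exfalso
      have ha : a = N.root := h1
      simp only [nodeDepth] at h4
      rw [ha, N.depth_root] at h4
      omega
    · exfalso
      have ha : a = N.root := h2
      simp only [nodeDepth] at h3
      rw [ha, N.depth_root] at h3
      omega
    · obtain ⟨e1, h1⟩ := h1
      obtain ⟨e2, h2⟩ := h2
      simp only [nodeDepth] at h3 h4
      simp only at e1 e2 h1 h2
      have := N.parent _ _ _ h1 h2 (by omega) (by omega)
      rw [this, ← e1, ← e2]
  depth_root := rfl

/-- adjacency in the graph with the hub `none` -/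
def Net.gadj (N : Net) : Option N.V → Option N.V → Prop
  | none, none => False
  | none, some a => N.hub a
  | some a, none => N.hub a
  | some a, some b => N.adj a b

/-- the network together with its hub -/
def Net.graph (N : Net) : SimpleGraph (Option N.V) where
  Adj := N.gadj
  symm := ⟨by
    rintro (_ | a) (_ | b) h
    · exact h
    · exact h
    · exact h
    · exact N.symm _ _ h⟩
  loopless := ⟨by
    rintro (_ | a) h
    · exact h
    · exact N.irr _ h⟩

/-! ### no `K₄` minor -/

/-- descendants of `a` -/
def Desc (N : Net) (a : N.V) : N.V → Prop :=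
  Relation.ReflTransGen (fun u v => N.adj u v ∧ N.depth u < N.depth v) a

theorem Desc.depth {N : Net} {a s : N.V} (h : Desc N a s) : s = a ∨ N.depth a < N.depth s := by
  induction h with
  | refl => exact Or.inl rfl
  | tail _ hbc ih =>
    right
    rcases ih with h | h
    · rw [← h]; exact hbc.2
    · exact h.trans hbc.2

/-- If a connected set avoids the hub and its vertex `a` has its lower neighbour outside of the
set, then `a` is the unique vertex of least depth of the set. -/
theorem top_unique {N : Net} {S : Set (Option N.V)} (hS : (N.graph.induce S).Connected)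
    (h0 : none ∉ S) {a b : N.V} (ha : some a ∈ S) (hb : some b ∉ S) (hab : N.adj a b)
    (hd : N.depth b < N.depth a) : ∀ s, some s ∈ S → s = a ∨ N.depth a < N.depth s := by
  have key : ∀ p : S, ∃ s, p.1 = some s ∧ Desc N a s := by
    intro p
    have hr := hS.preconnected ⟨some a, ha⟩ p
    rw [reachable_iff_reflTransGen] at hr
    induction hr with
    | refl => exact ⟨a, rfl, Relation.ReflTransGen.refl⟩
    | tail _ hbc ih =>
      rename_i u v _
      obtain ⟨s, hs, hD⟩ := ih
      have hadj : N.gadj u.1 v.1 := hbc
      obtain ⟨s', hs'⟩ : ∃ s', v.1 = some s' := by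
        rcases hv : v.1 with _ | s'
        · exact absurd (hv ▸ v.2) h0
        · exact ⟨s', rfl⟩
      rw [hs, hs'] at hadj
      have hadj' : N.adj s s' := hadj
      refine ⟨s', hs', ?_⟩
      rcases lt_or_gt_of_ne (N.depth_ne _ _ hadj') with h | h
      · exact hD.tail ⟨hadj', h⟩
      · rcases Relation.ReflTransGen.cases_tail hD with h1 | ⟨s'', h1, h2, h3⟩
        · exfalso
          rw [h1] at hadj' h
          have e := N.parent _ _ _ hadj' hab h hd
          apply hb
          rw [← e, ← hs']
          exact v.2
        · have e := N.parent _ _ _ hadj' (N.symm _ _ h2) h h3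
          rw [e]
          exact h1
  intro s hs
  obtain ⟨s', h1, h2⟩ := key ⟨some s, hs⟩
  have : s = s' := Option.some.inj h1
  rw [this]
  exact h2.depth

theorem noK4 (N : Net) : ¬ HasK4Minor N.graph := by
  classical
  rintro ⟨f, hc, hd, ha⟩
  -- the three sets without the hub
  obtain ⟨i0, hi0⟩ : ∃ i0, ∀ j, j ≠ i0 → none ∉ f j := by
    by_cases h : ∃ i, none ∈ f i
    · obtain ⟨i, hi⟩ := h
      exact ⟨i, fun j hj hn => Set.disjoint_left.1 (hd j i hj) hn hi⟩
    · push Not at h
      exact ⟨0, fun j _ => h j⟩
  let μ : Fin 4 → ℕ := fun i => sInf {n | ∃ s, some s ∈ f i ∧ N.depth s = n}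
  have hμle : ∀ i s, some s ∈ f i → μ i ≤ N.depth s := fun i s hs => Nat.sInf_le ⟨s, hs, rfl⟩
  have hμtop : ∀ i a, some a ∈ f i → (∀ s, some s ∈ f i → s = a ∨ N.depth a < N.depth s) →
      μ i = N.depth a := by
    intro i a hai htop
    apply le_antisymm (hμle i a hai)
    refine le_csInf ⟨N.depth a, a, hai, rfl⟩ ?_
    rintro n ⟨s, hs, rfl⟩
    rcases htop s hs with h | h
    · rw [h]
    · exact h.le
  obtain ⟨i, hi, hmax⟩ := Finset.exists_max_image (Finset.univ.erase i0) μ
    (by
      apply Finset.card_pos.1
      rw [Finset.card_erase_of_mem (Finset.mem_univ _)]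
      simp)
  have hii : i ≠ i0 := Finset.ne_of_mem_erase hi
  have edge : ∀ j, j ≠ i → j ≠ i0 → ∃ a b, some a ∈ f i ∧ some b ∈ f j ∧ N.adj a b ∧
      N.depth b < N.depth a ∧ ∀ s, some s ∈ f i → s = a ∨ N.depth a < N.depth s := by
    intro j hji hj0
    obtain ⟨x, hx, y, hy, hxy⟩ := ha i j (Ne.symm hji)
    have hnx := hi0 i hii
    have hny := hi0 j hj0
    rcases x with _ | a
    · exact absurd hx hnx
    rcases y with _ | b
    · exact absurd hy hny
    have hab : N.adj a b := hxy
    have hbi : some b ∉ f i := fun h => Set.disjoint_left.1 (hd i j (Ne.symm hji)) h hy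
    have haj : some a ∉ f j := fun h => Set.disjoint_left.1 (hd i j (Ne.symm hji)) hx h
    rcases lt_or_gt_of_ne (N.depth_ne _ _ hab) with h | h
    · exfalso
      have h1 := top_unique (hc j) hny hy haj (N.symm _ _ hab) h
      have h2 := hμtop j b hy h1
      have h3 := hμle i a hx
      have h4 := hmax j (Finset.mem_erase.2 ⟨hj0, Finset.mem_univ _⟩)
      omega
    · exact ⟨a, b, hx, hy, hab, h, top_unique (hc i) hnx hx hbi hab h⟩
  have dec1 : ∀ i i0 : Fin 4, ∃ j : Fin 4, j ≠ i ∧ j ≠ i0 := by decide
  have dec2 : ∀ i i0 j : Fin 4, ∃ k : Fin 4, k ≠ i ∧ k ≠ i0 ∧ k ≠ j := by decide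
  obtain ⟨j, hj⟩ := dec1 i i0
  obtain ⟨k, hk⟩ := dec2 i i0 j
  obtain ⟨a, b, h1, h2, h3, h4, h5⟩ := edge j hj.1 hj.2
  obtain ⟨a', b', h1', h2', h3', h4', h5'⟩ := edge k hk.1 hk.2.1
  have haa : a' = a := by
    rcases h5 a' h1' with h | h
    · exact h
    · rcases h5' a h1 with h' | h'
      · exact h'.symm
      · omega
  subst haa
  have := N.parent _ _ _ h3 h3' h4 h4'
  subst this
  exact Set.disjoint_left.1 (hd j k (Ne.symm hk.2.2)) h2 h2'

/-! ### degrees -/

/-- all degrees (the hub edge included) are at most `m + 1`, the one of the root at most `m` -/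
structure DegLE (N : Net) (m : ℕ) : Prop where
  all : ∀ a, N.hub a ∨ {b | N.adj a b}.ncard ≤ m + 1
  allhub : ∀ a, N.hub a → {b | N.adj a b}.ncard ≤ m
  root : N.hub N.root ∨ {b | N.adj N.root b}.ncard ≤ m
  roothub : N.hub N.root → {b | N.adj N.root b}.ncard + 1 ≤ m

theorem degLE_leaf {m : ℕ} (hm : 1 ≤ m) : DegLE leaf m := by
  have h : ∀ a : leaf.V, {b | leaf.adj a b} = ∅ := by
    intro a
    ext b
    simp only [Set.mem_setOf_eq, Set.mem_empty_iff_false, iff_false]
    exact fun h => h
  refine ⟨fun a => Or.inl trivial, fun a _ => ?_, Or.inl trivial, fun _ => ?_⟩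
  · rw [h]; simp
  · rw [h]; simpa using hm

theorem degLE_node {m : ℕ} {N : Net} (h : DegLE N m) : DegLE (node m N) m := by
  classical
  have := N.fin
  have := (node m N).fin
  have hroot : {b | (node m N).adj (node m N).root b}.ncard ≤ m := by
    let F : Fin m → (node m N).V := fun i => some (i, N.root)
    have hsub : {b | (node m N).adj (node m N).root b} ⊆ F '' Set.univ := by
      rintro (_ | ⟨i, b⟩) hb
      · exact hb.elim
      · have hb' : b = N.root := hb
        exact ⟨i, Set.mem_univ _, by rw [hb']⟩
    refine (Set.ncard_le_ncard hsub (Set.toFinite _)).trans ?_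
    refine (Set.ncard_image_le (Set.toFinite _)).trans ?_
    rw [Set.ncard_univ]
    simp
  let G : Fin m → N.V → (node m N).V := fun i b => some (i, b)
  let z : (node m N).V := (node m N).root
  have hsub : ∀ (i : Fin m) (a : N.V), {b | (node m N).adj (G i a) b} ⊆
      G i '' {b | N.adj a b} ∪ (if a = N.root then {z} else ∅) := by
    intro i a
    rintro (_ | ⟨j, b⟩) hb
    · right
      have hb' : a = N.root := hb
      rw [if_pos hb']
      rfl
    · left
      obtain ⟨h1, h2⟩ : i = j ∧ N.adj a b := hb
      exact ⟨b, h2, by rw [h1]⟩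
  have hcard : ∀ (i : Fin m) (a : N.V), {b | (node m N).adj (G i a) b}.ncard ≤
      {b | N.adj a b}.ncard + (if a = N.root then 1 else 0) := by
    intro i a
    refine (Set.ncard_le_ncard (hsub i a) (Set.toFinite _)).trans ?_
    refine (Set.ncard_union_le _ _).trans ?_
    apply add_le_add
    · exact Set.ncard_image_le (Set.toFinite _)
    · split_ifs <;> simp
  refine ⟨?_, ?_, Or.inr hroot, ?_⟩
  · rintro (_ | ⟨i, a⟩)
    · right
      exact hroot.trans (by omega)
    · rcases h.all a with h1 | h1
      · exact Or.inl h1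
      · right
        refine (hcard i a).trans ?_
        split_ifs with ha
        · rcases h.root with h2 | h2
          · have := h.roothub h2
            rw [ha]
            omega
          · rw [ha]
            omega
        · exact h1
  · rintro (_ | ⟨i, a⟩) ha
    · exact ha.elim
    · refine (hcard i a).trans ?_
      split_ifs with hr
      · have := h.roothub (hr ▸ ha)
        rw [hr]
        exact this
      · exact h.allhub a ha
  · intro hh
    exact hh.elim

/-- degree of a vertex different from the hub -/
theorem degree_graph {N : Net} {m : ℕ} (h : DegLE N m) (a : N.V) :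
    (N.graph.neighborSet (some a)).ncard ≤ m + 1 := by
  classical
  have := N.fin
  by_cases ha : N.hub a
  · have hsub : N.graph.neighborSet (some a) ⊆ some '' {b | N.adj a b} ∪ {none} := by
      rintro (_ | b) hb
      · right; rfl
      · left; exact ⟨b, hb, rfl⟩
    refine (Set.ncard_le_ncard hsub (Set.toFinite _)).trans ?_
    refine (Set.ncard_union_le _ _).trans ?_
    have := h.allhub a ha
    have h2 := Set.ncard_image_le (f := (some : N.V → Option N.V)) (Set.toFinite {b | N.adj a b})
    simp only [Set.ncard_singleton]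
    omega
  · have hsub : N.graph.neighborSet (some a) ⊆ some '' {b | N.adj a b} := by
      rintro (_ | b) hb
      · exact absurd hb ha
      · exact ⟨b, hb, rfl⟩
    refine (Set.ncard_le_ncard hsub (Set.toFinite _)).trans ?_
    refine (Set.ncard_image_le (Set.toFinite _)).trans ?_
    rcases h.all a with h1 | h1
    · exact absurd h1 ha
    · exact h1

/-! ### colourings -/

/-- number of colourings of a network with prescribed colours `h` of the hub and `c` of the root -/
noncomputable def cnt (N : Net) (q : ℕ) (h c : Fin q) : ℕ :=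
  Nat.card {g : N.V → Fin q // g N.root = c ∧ (∀ a b, N.adj a b → g a ≠ g b) ∧
    ∀ a, N.hub a → g a ≠ h}

theorem cnt_sum (N : Net) (q : ℕ) (h c : Fin q) :
    Nat.card {g : N.V → Fin q // g N.root ≠ c ∧ (∀ a b, N.adj a b → g a ≠ g b) ∧
      ∀ a, N.hub a → g a ≠ h} = ∑ d ∈ Finset.univ.filter (· ≠ c), cnt N q h d := by
  classical
  have := N.fin
  unfold cnt
  simp only [Nat.card_eq_fintype_card, Fintype.card_subtype]
  rw [Finset.card_eq_sum_card_fiberwise (f := fun g : N.V → Fin q => g N.root)
    (t := Finset.univ.filter (· ≠ c))]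
  · apply Finset.sum_congr rfl
    intro d hd
    congr 1
    ext g
    simp only [Finset.mem_filter, Finset.mem_univ, true_and] at hd ⊢
    constructor
    · rintro ⟨⟨h1, h2⟩, h3⟩
      exact ⟨h3, h2⟩
    · rintro ⟨h1, h2⟩
      exact ⟨⟨h1 ▸ hd, h2⟩, h1⟩
  · intro g hg
    simp only [Finset.coe_filter, Finset.mem_univ, true_and, Set.mem_setOf_eq] at hg ⊢
    exact hg.1

theorem cnt_node (m : ℕ) (N : Net) (q : ℕ) (h c : Fin q) :
    cnt (node m N) q h c = (∑ d ∈ Finset.univ.filter (· ≠ c), cnt N q h d) ^ m := by
  rw [← cnt_sum]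
  have e : {g : (node m N).V → Fin q // g (node m N).root = c ∧
      (∀ a b, (node m N).adj a b → g a ≠ g b) ∧ ∀ a, (node m N).hub a → g a ≠ h} ≃
      (Fin m → {g : N.V → Fin q // g N.root ≠ c ∧ (∀ a b, N.adj a b → g a ≠ g b) ∧
        ∀ a, N.hub a → g a ≠ h}) :=
    { toFun := fun g i => ⟨fun x => g.1 (some (i, x)), by
          have h1 := g.2.2.1 none (some (i, N.root)) rfl
          have h2 : g.1 none = c := g.2.1
          rw [h2] at h1
          exact h1.symm,
        fun a b hab => g.2.2.1 (some (i, a)) (some (i, b)) ⟨rfl, hab⟩,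
        fun a ha => g.2.2.2 (some (i, a)) ha⟩
      invFun := fun F => ⟨fun o => Option.elim o c (fun p => (F p.1).1 p.2), rfl, by
          rintro (_ | ⟨i, a⟩) (_ | ⟨j, b⟩) hab
          · exact hab.elim
          · have hb : b = N.root := hab
            have := (F j).2.1
            show c ≠ (F j).1 b
            rw [hb]
            exact this.symm
          · have hb : a = N.root := hab
            have := (F i).2.1
            show (F i).1 a ≠ c
            rw [hb]
            exact this
          · obtain ⟨h1, h2⟩ : i = j ∧ N.adj a b := hab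
            subst h1
            exact (F i).2.2.1 a b h2,
        by
          rintro (_ | ⟨i, a⟩) ha
          · exact ha.elim
          · exact (F i).2.2.2 a ha⟩
      left_inv := by
        intro g
        apply Subtype.ext
        funext o
        rcases o with _ | ⟨i, a⟩
        · exact g.2.1.symm
        · rfl
      right_inv := by
        intro F
        rfl }
  unfold cnt
  rw [Nat.card_congr e, Nat.card_fun, Nat.card_fin]

theorem numColourings_graph (N : Net) (q : ℕ) :
    numColourings N.graph q = ∑ h : Fin q, ∑ c : Fin q, cnt N q h c := by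
  classical
  have := N.fin
  have e : {σ : Option N.V → Fin q // ∀ x y, N.graph.Adj x y → σ x ≠ σ y} ≃
      Σ h : Fin q, Σ c : Fin q, {g : N.V → Fin q // g N.root = c ∧
        (∀ a b, N.adj a b → g a ≠ g b) ∧ ∀ a, N.hub a → g a ≠ h} :=
    { toFun := fun σ => ⟨σ.1 none, σ.1 (some N.root), fun a => σ.1 (some a), rfl,
        fun a b hab => σ.2 (some a) (some b) hab, fun a ha => σ.2 (some a) none ha⟩
      invFun := fun p => ⟨fun o => Option.elim o p.1 p.2.2.1, by
        rintro (_ | a) (_ | b) hab
        · exact hab.elim
        · exact (p.2.2.2.2.2 b hab).symm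
        · exact p.2.2.2.2.2 a hab
        · exact p.2.2.2.2.1 a b hab⟩
      left_inv := by
        intro σ
        apply Subtype.ext
        funext o
        rcases o with _ | a <;> rfl
      right_inv := by
        rintro ⟨h, c, g, rfl, hg⟩
        rfl }
  unfold numColourings
  rw [Nat.card_congr e, Nat.card_sigma]
  apply Finset.sum_congr rfl
  intro h _
  rw [Nat.card_sigma]
  rfl

/-! ### the regular trees -/

/-- the `m`-ary tree of depth `j`, all leaves joined to the hub -/
def net (m : ℕ) : ℕ → Net
  | 0 => leaf
  | j + 1 => node m (net m j)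

/-- `(A_j, B_j)` -/
noncomputable def AB (m : ℕ) : ℕ → ℂ[X] × ℂ[X]
  | 0 => (0, 1)
  | j + 1 => (((X - 1) * (AB m j).2) ^ m, ((AB m j).1 + (X - 2) * (AB m j).2) ^ m)

theorem cnt_eval (m j q : ℕ) (h c : Fin q) :
    (cnt (net m j) q h c : ℂ) = if c = h then (AB m j).1.eval (q : ℂ) else (AB m j).2.eval (q : ℂ) := by
  classical
  induction j generalizing h c with
  | zero =>
    have e : cnt (net m 0) q h c = if c = h then 0 else 1 := by
      unfold cnt
      by_cases hch : c = h
      · rw [if_pos hch]
        have : IsEmpty {g : (net m 0).V → Fin q // g (net m 0).root = c ∧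
            (∀ a b, (net m 0).adj a b → g a ≠ g b) ∧ ∀ a, (net m 0).hub a → g a ≠ h} := by
          refine ⟨fun g => ?_⟩
          exact g.2.2.2 () trivial (g.2.1.trans hch)
        exact Nat.card_of_isEmpty
      · rw [if_neg hch]
        have : Unique {g : (net m 0).V → Fin q // g (net m 0).root = c ∧
            (∀ a b, (net m 0).adj a b → g a ≠ g b) ∧ ∀ a, (net m 0).hub a → g a ≠ h} :=
          { default := ⟨fun _ => c, rfl, fun a b hab => False.elim hab, fun a _ => hch⟩
            uniq := by
              rintro ⟨g, h1, h2⟩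
              apply Subtype.ext
              funext a
              exact h1 }
        exact Nat.card_unique
    rw [e]
    split_ifs <;> simp [AB]
  | succ j ih =>
    show (cnt (node m (net m j)) q h c : ℂ) = _
    rw [cnt_node]
    push_cast
    have h1 : ∑ d ∈ Finset.univ.filter (· ≠ c), (cnt (net m j) q h d : ℂ) =
        ∑ d : Fin q, (cnt (net m j) q h d : ℂ) - (cnt (net m j) q h c : ℂ) := by
      rw [Finset.filter_ne', ← Finset.add_sum_erase _ _ (Finset.mem_univ c)]
      ring
    rw [h1]
    simp only [ih]
    have h2 : ∑ d : Fin q, (if d = h then (AB m j).1.eval (q : ℂ) else (AB m j).2.eval (q : ℂ)) =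
        q * (AB m j).2.eval (q : ℂ) + ((AB m j).1.eval (q : ℂ) - (AB m j).2.eval (q : ℂ)) := by
      have : ∀ d : Fin q, (if d = h then (AB m j).1.eval (q : ℂ) else (AB m j).2.eval (q : ℂ)) =
          (AB m j).2.eval (q : ℂ) +
            if d = h then ((AB m j).1.eval (q : ℂ) - (AB m j).2.eval (q : ℂ)) else 0 := by
        intro d
        split_ifs <;> ring
      simp only [this, Finset.sum_add_distrib, Finset.sum_ite_eq', Finset.mem_univ, if_true,
        Finset.sum_const, Finset.card_univ, Fintype.card_fin, nsmul_eq_mul]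
    rw [h2]
    split_ifs with hch
    · simp only [AB, eval_pow, eval_mul, eval_sub, eval_X, eval_one]
      congr 1
      ring
    · simp only [AB, eval_pow, eval_mul, eval_sub, eval_X, eval_add, eval_ofNat]
      congr 1
      ring

/-- the chromatic polynomial of the tree with hub -/
noncomputable def chrom (m j : ℕ) : ℂ[X] := X * ((AB m j).1 + (X - 1) * (AB m j).2)

theorem chrom_spec (m j : ℕ) : IsChromaticPolynomial (net m j).graph (chrom m j) := by
  classical
  intro q _
  rw [numColourings_graph]
  push_cast
  simp only [cnt_eval]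
  have h2 : ∀ h : Fin q,
      ∑ d : Fin q, (if d = h then (AB m j).1.eval (q : ℂ) else (AB m j).2.eval (q : ℂ)) =
        q * (AB m j).2.eval (q : ℂ) + ((AB m j).1.eval (q : ℂ) - (AB m j).2.eval (q : ℂ)) := by
    intro h
    have : ∀ d : Fin q, (if d = h then (AB m j).1.eval (q : ℂ) else (AB m j).2.eval (q : ℂ)) =
        (AB m j).2.eval (q : ℂ) +
          if d = h then ((AB m j).1.eval (q : ℂ) - (AB m j).2.eval (q : ℂ)) else 0 := by
      intro d
      split_ifs <;> ring
    simp only [this, Finset.sum_add_distrib, Finset.sum_ite_eq', Finset.mem_univ, if_true,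
      Finset.sum_const, Finset.card_univ, Fintype.card_fin, nsmul_eq_mul]
  simp only [h2, Finset.sum_const, Finset.card_univ, Fintype.card_fin, nsmul_eq_mul, chrom,
    eval_mul, eval_X, eval_add, eval_sub, eval_one]
  ring

theorem degLE_net {m : ℕ} (hm : 1 ≤ m) (j : ℕ) : DegLE (net m j) m := by
  induction j with
  | zero => exact degLE_leaf hm
  | succ j ih => exact degLE_node ih

end Pool.Agent.U535.CR
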